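import Pool.Agent.W896.PD.Fix
import Pool.Agent.H538R4.SP.Sat

/-!
# 3-SAT is hard for randomised pushdown programs in linear time
-/

set_option autoImplicit false

open Finset

namespace Pool.Agent.W896.PD

open Pool.Agent.H554R2.Sem Pool.Agent.H554R2.Cnf Pool.Agent.H538R4.SP

theorem genPD (k : ℕ) : ∃ D : ℕ, 0 < D ∧ ∀ (V : Type) [BEq V] [LawfulBEq V]
    (Sol : (V → Bool) → Prop) (n : ℕ) (p : Fin n → V), Function.Injective p →
    (∀ F : Finset (Finset (Fin n × Bool)), (∀ c ∈ F, c.card ≤ D) → F.card ≤ D * n →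
      ∃ b : V → Bool, ∀ x : Pt n, Sol (plug p b x) ↔ Models F x) →
    ∀ q : ℕ, q ≤ n / D → ∃ b : V → Bool, ∀ P : PP V Bool,
      (∀ (x : Pt n) L, P.Comp (plug p b x) L true → Sol (plug p b x)) →
      Nat.card {x : Pt n // Sol (plug p b x)} ≤ 2 ^ q *
        Nat.card {x : Pt n // ∃ L, P.Comp (plug p b x) L true ∧ ∑ i, L.count (p i) ≤ k * n} →
      2 ^ q ≤ Fintype.card P.State := by
  classical
  obtain ⟨D0, hD0, h⟩ := final_pd k
  obtain ⟨D, hD⟩ : ∃ D : ℕ, D = 2 * D0 := ⟨_, rfl⟩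
  have hDD : D0 ≤ D := by omega
  refine ⟨D, by omega, fun V _ _ Sol n p hp hred q hq => ?_⟩
  rcases Nat.lt_or_ge n D with hn | hn
  · rw [Nat.div_eq_of_lt hn] at hq
    have : q = 0 := by omega
    rw [this]
    exact ⟨fun _ => true, fun P _ _ => Fintype.card_pos_iff.2 ⟨P.start⟩⟩
  · obtain ⟨F, hF1, hF2, hF3⟩ := h n (by omega)
    obtain ⟨b, hx⟩ := hred F (fun c hc => (hF2 c hc).trans hDD)
      (hF1.trans (Nat.mul_le_mul_right _ hDD))
    refine ⟨b, fun P hP hl => ?_⟩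
    by_contra hlt
    push Not at hlt
    have hq1 : q + 1 ≤ n / D0 := by
      have e1 : D * (n / D) ≤ n := Nat.mul_div_le n D
      have e2 : 1 ≤ n / D := (Nat.one_le_div_iff (by omega)).2 hn
      rw [Nat.le_div_iff_mul_le hD0]
      calc (q + 1) * D0 ≤ (2 * (n / D)) * D0 := Nat.mul_le_mul_right _ (by omega)
        _ = D * (n / D) := by rw [hD]; ring
        _ ≤ n := e1
    have h1 := hF3 (fixPD p b P) (by
      rw [fixPD_card]
      calc Fintype.card P.State * 2 ≤ 2 ^ q * 2 := Nat.mul_le_mul_right _ hlt.le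
        _ = 2 ^ (q + 1) := by rw [pow_succ]
        _ ≤ 2 ^ (n / D0) := Nat.pow_le_pow_right (by norm_num) hq1) (by
      intro x l hl
      obtain ⟨L, hL⟩ := (fixPD_sound hp b P x hl).1 [] rfl rfl
      rw [← hx x]
      exact hP x L hL)
    have e3 : Nat.card {x : Pt n // Models F x} = Nat.card {x : Pt n // Sol (plug p b x)} :=
      Nat.card_congr (Equiv.subtypeEquivRight (fun x => (hx x).symm))
    have h3 : Nat.card {x : Pt n // ∃ L, P.Comp (plug p b x) L true ∧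
          ∑ i, L.count (p i) ≤ k * n} ≤
        Nat.card {x : Pt n // ∃ l, (fixPD p b P).Comp x l true ∧ l.length ≤ k * n} := by
      refine Nat.card_le_card_of_injective (fun y => ⟨y.1, ?_⟩) ?_
      · obtain ⟨L, h4, h6⟩ := y.2
        exact ⟨L.filterMap (idx p), fixPD_complete hp b P y.1 h4,
          by rw [idx_length p hp]; exact h6⟩
      · intro y z hyz
        exact Subtype.ext (by simpa using hyz)
    have h4 := hl.trans (Nat.mul_le_mul (Nat.pow_le_pow_right (n := 2) (by norm_num)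
      (show q ≤ n / D0 by omega)) h3)
    exact absurd (e3.le.trans h4) (not_le.2 h1)

theorem finalSatPD (k : ℕ) : ∃ D : ℕ, 0 < D ∧ ∀ (n M ℓ : ℕ) (a : Fin n ↪ Fin M), D * n ≤ M →
    D * n ≤ 2 ^ ℓ → ∃ b : Idx M ℓ → Bool, ∀ (R : Type) [Fintype R] [Nonempty R]
      (U : R → PP (Idx M ℓ) Bool),
      (∀ r (x : Pt n) L, (U r).Comp (plug (fun i => sgn ℓ (a i)) b x) L true →
        Sat3 (plug (fun i => sgn ℓ (a i)) b x)) →
      (∀ x : Pt n, Sat3 (plug (fun i => sgn ℓ (a i)) b x) → Nat.card R ≤ 2 ^ (n / D) *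
        Nat.card {r // ∃ L, (U r).Comp (plug (fun i => sgn ℓ (a i)) b x) L true ∧
          ∑ i, L.count (sgn ℓ (a i)) ≤ k * n}) →
      ∃ r, 2 ^ (n / D) ≤ Fintype.card (U r).State := by
  obtain ⟨D1, hD1, h1⟩ := genPD k
  refine ⟨(D1 + 2) * (D1 + 2), by positivity, fun n M ℓ a hM hℓ => ?_⟩
  set D := (D1 + 2) * (D1 + 2) with hD
  have hD1D : D1 ≤ D := by rw [hD]; nlinarith
  rcases Nat.eq_zero_or_pos n with h0 | hpos
  · have h3 : n / D = 0 := by rw [h0]; simp
    rw [h3]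
    exact ⟨fun _ => true, fun R _ _ U _ _ =>
      ⟨Classical.arbitrary R, Fintype.card_pos_iff.2 ⟨(U _).start⟩⟩⟩
  have hp : Function.Injective (fun i => (sgn ℓ (a i) : Idx M ℓ)) :=
    fun i j h => a.injective (sgn_inj h)
  obtain ⟨b, hb⟩ := h1 (Idx M ℓ) Sat3 n _ hp (fun F hF hFc => by
    have h3 : n + 1 + (D1 + 1) * F.card ≤ D * n := by
      have h4 : (D1 + 1) * F.card ≤ (D1 + 2) * (D1 * n) :=
        Nat.mul_le_mul (by omega) hFc
      have h5 : D * n = (D1 + 2) * (D1 * n) + (D1 + 2) * (2 * n) := by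
        rw [hD]; ring
      have h6 : n + 1 ≤ (D1 + 2) * (2 * n) := by nlinarith
      omega
    exact reduction_set F hF (h3.trans hM) (h3.trans hℓ) a a.injective) (n / D)
    (Nat.div_le_div_left hD1D hD1)
  refine ⟨b, fun R _ _ U hU hl => ?_⟩
  obtain ⟨r, hr⟩ := average (fun x : Pt n => Sat3 (plug (fun i => sgn ℓ (a i)) b x))
    (fun r (x : Pt n) => ∃ L, (U r).Comp (plug (fun i => sgn ℓ (a i)) b x) L true ∧
          ∑ i, L.count (sgn ℓ (a i)) ≤ k * n) (n / D) hl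
  exact ⟨r, hb (U r) (hU r) hr⟩

end Pool.Agent.W896.PD
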