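import Pool.Agent.W896.PD.Decomp
import Pool.Agent.H554R2.Lin.Defs

/-!
# Pushdown programs: large classes of inputs with the same decomposition
-/

set_option autoImplicit false

open Finset

namespace Pool.Agent.W896.PD

open Pool.Agent.H554R2.Sem Pool.Agent.H554R2.Lin

variable {β : Type}

/-- The information: the number of the last piece, and for each piece the entry, the exit, the
number of positions and the positions of the holes. -/
abbrev Info (S : Type) (r L : ℕ) : Type :=
  Fin r × (Fin r → S × S × Fin (L + 1) × (Fin r → Fin (L + 1)))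

/-- the positions of the holes -/
noncomputable def pos (L : ℕ) (g : ℕ → Option ℕ) (i : ℕ) : Fin (L + 1) := by
  classical
  exact if h : ∃ c, g c = some i ∧ c < L then ⟨h.choose, by have := h.choose_spec.2; omega⟩
    else ⟨L, by omega⟩

theorem pos_iff {L : ℕ} {g : ℕ → Option ℕ} {m e : ℕ} (hs : Shape g m e) (he : e ≤ L) (c i : ℕ) :
    g c = some i ↔ ((pos L g i : ℕ) = c ∧ c < L) := by
  classical
  constructor
  · intro h
    have hc := (hs.1 c i h).2
    have hex : ∃ c, g c = some i ∧ c < L := ⟨c, h, by omega⟩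
    refine ⟨?_, by omega⟩
    unfold pos
    rw [dif_pos hex]
    exact hs.2 _ _ i hex.choose_spec.1 h
  · rintro ⟨h1, h2⟩
    by_cases hex : ∃ c, g c = some i ∧ c < L
    · unfold pos at h1
      rw [dif_pos hex] at h1
      rw [← h1]
      exact hex.choose_spec.1
    · unfold pos at h1
      rw [dif_neg hex] at h1
      simp only at h1
      omega

/-- the information of a decomposition -/
noncomputable def info {S : Type} (r L m : ℕ) (hm : m < r) (q p : ℕ → S) (e : ℕ → ℕ)
    (g : ℕ → ℕ → Option ℕ) : Info S r L :=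
  (⟨m, hm⟩, fun j => (q j, p j, ⟨min (e j) L, by omega⟩, fun i => pos L (g j) i))

theorem exists_max_fiber {α I : Type} [DecidableEq I] [Fintype I] (G : Finset α) (f : α → I)
    (hG : G.Nonempty) :
    ∃ y, (G.filter (fun x => f x = y)).Nonempty ∧
      G.card ≤ Fintype.card I * (G.filter (fun x => f x = y)).card := by
  obtain ⟨x0, hx0⟩ := hG
  obtain ⟨y, -, hy⟩ := Finset.exists_max_image (univ : Finset I)
    (fun y => (G.filter (fun x => f x = y)).card) ⟨f x0, mem_univ _⟩
  have h1 : G.card ≤ Fintype.card I * (G.filter (fun x => f x = y)).card := by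
    rw [Finset.card_eq_sum_card_fiberwise (s := G) (t := univ) (f := f) (fun _ _ => mem_univ _)]
    refine (Finset.sum_le_card_nsmul _ _ _ (fun i hi => hy i hi)).trans ?_
    rw [smul_eq_mul, card_univ]
  refine ⟨y, ?_, h1⟩
  rw [Finset.nonempty_iff_ne_empty]
  intro h
  rw [h, card_empty, mul_zero] at h1
  have : 0 < G.card := card_pos.2 ⟨x0, hx0⟩
  omega

/-- **Blocks.** -/
theorem blocks {n : ℕ} (P : PP (Fin n) β) (r t : ℕ) (hr : 0 < r) (b : β) (G : Finset (Pt n))
    (hG : ∀ x ∈ G, ∃ l, P.Comp x l b ∧ l.length < r * t) :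
    ∃ B : Blk n r (2 * t),
      G.card ≤ r * (Fintype.card P.State * (Fintype.card P.State *
        ((r * t + 1) * (r * t + 1) ^ r))) ^ r * B.K.card ∧
      ∀ x ∈ B.K, ∃ l, P.Comp x l b := by
  classical
  rcases G.eq_empty_or_nonempty with hempty | hne
  · refine ⟨⟨∅, fun _ _ => ∅, ?_, ?_, ?_⟩, ?_, ?_⟩
    · intro x hx; simp at hx
    · intro x hx; simp at hx
    · intro X hX z _
      exact absurd (hX ⟨0, hr⟩) (by simp)
    · rw [hempty]; simp
    · intro x hx; simp at hx
  set L := r * t with hL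
  have hdata : ∀ x : {x // x ∈ G}, ∃ (m : ℕ) (q p : ℕ → P.State) (e : ℕ → ℕ)
      (g : ℕ → ℕ → Option ℕ), m < r ∧ (∀ j ≤ m, Val P x.1 t L q p e g j) ∧ q m = P.start ∧
        P.act (p m) = Act.out b := by
    rintro ⟨x, hx⟩
    obtain ⟨l, hl, hlen⟩ := hG x hx
    obtain ⟨pf, h1, h2⟩ := comp_iff.1 hl
    obtain ⟨m, q, p, e, g, a1, a2, a3, a4⟩ := decomp h1 hlen
    exact ⟨m, q, p, e, g, a1, a2, a3, by rw [a4]; exact h2⟩
  choose fm fq fp fe fg hm hval hstart hout using hdata
  set f : {x // x ∈ G} → Info P.State r L :=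
    fun x => info r L (fm x) (hm x) (fq x) (fp x) (fe x) (fg x) with hf
  obtain ⟨y, ⟨x0, hx0⟩, hy2⟩ := exists_max_fiber (G.attach) f
    (by rw [Finset.attach_nonempty_iff]; exact hne)
  rw [mem_filter] at hx0
  set m := fm x0 with hm0
  set q := fq x0 with hq0
  set p := fp x0 with hp0
  set e := fe x0 with he0
  set g := fg x0 with hg0
  set K : Finset (Pt n) := univ.filter (fun z => ∀ j ≤ m, Val P z t L q p e g j) with hK
  have memK : ∀ {z : Pt n}, z ∈ K ↔ ∀ j ≤ m, Val P z t L q p e g j := by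
    intro z; rw [hK, mem_filter]; simp
  set Rd : Fin r → Pt n → Finset (Fin n) := fun j x => univ.filter (fun i => (j : ℕ) ≤ m ∧
    ∃ l, Der P (Hof q p (g j)) x (q j) 0 l (p j) (e j) ∧ i ∈ l) with hRd
  have Rd_eq : ∀ {j : Fin r} {x : Pt n} {l : List (Fin n)}, (j : ℕ) ≤ m →
      Der P (Hof q p (g j)) x (q j) 0 l (p j) (e j) → Rd j x = l.toFinset := by
    intro j x l hj hd
    ext i
    simp only [hRd, mem_filter, mem_univ, true_and, List.mem_toFinset]
    constructor
    · rintro ⟨-, l', hl', hi⟩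
      rw [(hd.unique hl').1]; exact hi
    · intro hi
      exact ⟨hj, l, hd, hi⟩
  have Rd_empty : ∀ {j : Fin r} {x : Pt n}, ¬ (j : ℕ) ≤ m → Rd j x = ∅ := by
    intro j x hj
    ext i
    simp only [hRd, mem_filter, mem_univ, true_and, notMem_empty, iff_false]
    exact fun h => hj h.1
  refine ⟨⟨K, Rd, ?_, ?_, ?_⟩, ?_, ?_⟩
  · intro x hx j
    by_cases hj : (j : ℕ) ≤ m
    · obtain ⟨⟨l, hl, hd⟩, -, -⟩ := (memK.1 hx) j hj
      rw [Rd_eq hj hd]
      exact (List.toFinset_card_le l).trans hl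
    · rw [Rd_empty hj]; simp
  · intro x hx y hy j hxy
    by_cases hj : (j : ℕ) ≤ m
    · obtain ⟨⟨l, hl, hd⟩, -, -⟩ := (memK.1 hx) j hj
      obtain ⟨⟨l', hl', hd'⟩, -, -⟩ := (memK.1 hy) j hj
      rw [Rd_eq hj hd, Rd_eq hj hd'] at hxy ⊢
      rw [(hd.agree hd' (fun i hi hi' =>
        hxy i (List.mem_toFinset.2 hi) (List.mem_toFinset.2 hi'))).1]
    · rw [Rd_empty hj, Rd_empty hj]
  · intro X hX z hz
    have hkey : ∀ j : Fin r, (j : ℕ) ≤ m → ∃ l, l.length ≤ 2 * t ∧
        Der P (Hof q p (g j)) (X j) (q j) 0 l (p j) (e j) ∧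
        Der P (Hof q p (g j)) z (q j) 0 l (p j) (e j) := by
      intro j hj
      obtain ⟨⟨l, hl, hd⟩, -, -⟩ := (memK.1 (hX j)) j hj
      refine ⟨l, hl, hd, hd.transfer (fun i hi => hz j i ?_)⟩
      rw [Rd_eq hj hd]
      exact List.mem_toFinset.2 hi
    constructor
    · rw [memK]
      intro j hj
      have hjr : j < r := lt_of_le_of_lt hj (hm x0)
      obtain ⟨l, hl, -, hd⟩ := hkey ⟨j, hjr⟩ hj
      obtain ⟨-, hs, hLe⟩ := (memK.1 (hX ⟨j, hjr⟩)) j hj
      exact ⟨⟨l, hl, hd⟩, hs, hLe⟩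
    · intro j
      by_cases hj : (j : ℕ) ≤ m
      · obtain ⟨l, hl, hd1, hd2⟩ := hkey j hj
        rw [Rd_eq hj hd1, Rd_eq hj hd2]
      · rw [Rd_empty hj, Rd_empty hj]
  · -- cardinality
    have h1 : Fintype.card (Info P.State r L) = r * (Fintype.card P.State *
        (Fintype.card P.State * ((L + 1) * (L + 1) ^ r))) ^ r := by
      simp only [Info, Fintype.card_prod, Fintype.card_fun, Fintype.card_fin]
    rw [card_attach, h1] at hy2
    refine hy2.trans (Nat.mul_le_mul_left _ ?_)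
    refine Finset.card_le_card_of_injOn (fun x => x.1) ?_ (fun x _ y _ h => Subtype.ext h)
    intro x hx
    rw [mem_coe, mem_filter] at hx
    show x.1 ∈ K
    rw [memK]
    have hfx : f x = f x0 := hx.2.trans hx0.2.symm
    simp only [hf, info, Prod.mk.injEq, Fin.mk.injEq] at hfx
    obtain ⟨e1, e2⟩ := hfx
    intro j hj
    have hjx : j ≤ fm x := by rw [e1]; exact hj
    have hjr : j < r := lt_of_le_of_lt hjx (hm x)
    have e3 : ∀ i ≤ j, fq x i = q i ∧ fp x i = p i := by
      intro i hi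
      have := congrFun e2 ⟨i, by omega⟩
      simp only [Prod.mk.injEq] at this
      exact ⟨this.1, this.2.1⟩
    have e4 := congrFun e2 ⟨j, hjr⟩
    simp only [Prod.mk.injEq, Fin.mk.injEq] at e4
    obtain ⟨-, -, e5, e6⟩ := e4
    have v1 := hval x j hjx
    have v2 := hval x0 j hj
    have e7 : fe x j = e j := by
      have w1 := v1.2.2
      have w2 := v2.2.2
      rw [min_eq_left w1, min_eq_left w2] at e5
      exact e5
    refine v1.congr (fun i hi => (e3 i hi).1) (fun i hi => (e3 i hi).2) e7 ?_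
    funext c
    apply Option.ext
    intro i
    rw [pos_iff v1.2.1 v1.2.2, pos_iff v2.2.1 v2.2.2]
    rcases Nat.lt_or_ge i j with hij | hij
    · have := congrFun e6 ⟨i, by omega⟩
      simp only at this
      rw [this]
    · constructor
      · intro h
        have := (v1.2.1.1 c i ((pos_iff v1.2.1 v1.2.2 c i).2 h)).1
        omega
      · intro h
        have := (v2.2.1.1 c i ((pos_iff v2.2.1 v2.2.2 c i).2 h)).1
        omega
  · intro x hx
    obtain ⟨l, hl⟩ := compose (memK.1 hx) m le_rfl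
    refine ⟨l, comp_iff.2 ⟨p m, ?_, hout x0⟩⟩
    rw [← hstart x0]
    exact hl

end Pool.Agent.W896.PD
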