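import Pool.Agent.W896.PD.Blocks
import Pool.Agent.H554R2.Lin.Main
import Pool.Agent.H554R2.Lin.CnfLin

/-!
# Random CNF formulas are hard for pushdown programs in linear time
-/

set_option autoImplicit false

open Finset

namespace Pool.Agent.W896.PD

open Pool.Agent.H554R2.Sem Pool.Agent.H554R2.Lin Pool.Agent.H554R2.Cnf

theorem exp_big (c : ℕ) (hc : 1 ≤ c) (a : ℕ) : ∃ N : ℕ, ∀ n ≥ N, a * (n + 1) ≤ 2 ^ (n / c) := by
  refine ⟨c * (a * c + 10), fun n hn => ?_⟩
  obtain ⟨m, hm⟩ : ∃ m : ℕ, m = n / c := ⟨_, rfl⟩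
  have h1 : a * c + 10 ≤ m := by
    rw [hm, Nat.le_div_iff_mul_le (by omega)]
    linarith [Nat.mul_comm c (a * c + 10)]
  have h2 : n < c * (m + 1) := by rw [hm]; exact Nat.lt_mul_div_succ n (by omega)
  have h3 : ∀ m : ℕ, 6 ≤ m → (m + 1) ^ 2 ≤ 2 ^ m := by
    intro m hm
    induction m, hm using Nat.le_induction with
    | base => norm_num
    | succ m hm ih =>
      calc (m + 1 + 1) ^ 2 ≤ 2 * (m + 1) ^ 2 := by nlinarith
        _ ≤ 2 * 2 ^ m := Nat.mul_le_mul_left _ ih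
        _ = 2 ^ (m + 1) := by rw [pow_succ]; ring
  rw [← hm]
  calc a * (n + 1) ≤ a * (c * (m + 1)) := Nat.mul_le_mul_left _ h2
    _ = (a * c) * (m + 1) := by ring
    _ ≤ (m + 1) * (m + 1) := Nat.mul_le_mul_right _ (by omega)
    _ = (m + 1) ^ 2 := by ring
    _ ≤ 2 ^ m := h3 m (by omega)

/-- the number of classes -/
theorem classes_le (k r : ℕ) (hr : 0 < r) (A : ℕ) (hA : 0 < A) : ∃ D : ℕ, 0 < D ∧
    ∀ n ≥ D, ∀ S : ℕ, S ≤ 2 ^ (n / D) →
      A * (2 ^ (n / D) * (r * (S * (S * ((r * (k * n / r + 1) + 1) *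
        (r * (k * n / r + 1) + 1) ^ r))) ^ r)) ^ A ≤ 2 ^ (n / (8 * A)) := by
  obtain ⟨c, hc⟩ : ∃ c : ℕ, c = 32 * A * A * (2 + (r + 1) * r) := ⟨_, rfl⟩
  have hc1 : 1 ≤ c := by rw [hc]; exact Nat.one_le_iff_ne_zero.2 (by positivity)
  obtain ⟨N, hN⟩ := exp_big c hc1 (A + r + k + 2)
  obtain ⟨D, hD⟩ : ∃ D : ℕ, D = 32 * A * A * (2 * r + 1) + N + r + 1 := ⟨_, rfl⟩
  refine ⟨D, by omega, fun n hn S hS => ?_⟩
  set X := 2 ^ (n / c) with hX
  set Y := 2 ^ (n / D) with hY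
  have h1 : (A + r + k + 2) * (n + 1) ≤ X := hN n (by omega)
  have h2 : A ≤ X := by nlinarith
  have h3 : r ≤ X := by nlinarith
  have h4 : r * (k * n / r + 1) + 1 ≤ X := by
    have e1 : r * (k * n / r) ≤ k * n := Nat.mul_div_le _ _
    have e2 : r * (k * n / r + 1) = r * (k * n / r) + r := by ring
    rw [e2]
    have e3 : (A + r + k + 2) * (n + 1) = A * (n + 1) + r * (n + 1) + k * n + k + 2 * (n + 1) := by
      ring
    nlinarith
  set B := r * (k * n / r + 1) + 1 with hB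
  have h5 : A * (Y * (r * (S * (S * (B * B ^ r))) ^ r)) ^ A ≤
      X * (Y * (X * (Y * (Y * (X * X ^ r))) ^ r)) ^ A := by
    apply Nat.mul_le_mul h2
    apply Nat.pow_le_pow_left
    apply Nat.mul_le_mul le_rfl
    apply Nat.mul_le_mul h3
    apply Nat.pow_le_pow_left
    apply Nat.mul_le_mul hS
    apply Nat.mul_le_mul hS
    exact Nat.mul_le_mul h4 (Nat.pow_le_pow_left h4 r)
  refine h5.trans ?_
  have h6 : X * (Y * (X * (Y * (Y * (X * X ^ r))) ^ r)) ^ A =
      Y ^ ((2 * r + 1) * A) * X ^ ((1 + (r + 1) * r) * A + 1) := by ring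
  rw [h6, hX, hY, ← pow_mul, ← pow_mul, ← pow_add]
  apply Nat.pow_le_pow_right (by norm_num)
  rw [Nat.le_div_iff_mul_le (by positivity)]
  have h7 : c * (n / c) ≤ n := Nat.mul_div_le n c
  have h8 : D * (n / D) ≤ n := Nat.mul_div_le n D
  have h9 : 32 * A * A * (2 * r + 1) * (n / D) ≤ n :=
    (Nat.mul_le_mul_right _ (by omega)).trans h8
  have h10 : (1 + (r + 1) * r) * A + 1 ≤ (2 + (r + 1) * r) * A := by nlinarith
  rw [hc] at h7
  calc ((n / D) * ((2 * r + 1) * A) + (n / c) * ((1 + (r + 1) * r) * A + 1)) * (8 * A)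
      ≤ ((n / D) * ((2 * r + 1) * A) + (n / c) * ((2 + (r + 1) * r) * A)) * (8 * A) := by
        apply Nat.mul_le_mul_right
        apply Nat.add_le_add_left
        exact Nat.mul_le_mul_left _ h10
    _ ≤ n := by
        have e1 : ((n / D) * ((2 * r + 1) * A) + (n / c) * ((2 + (r + 1) * r) * A)) * (8 * A) =
          8 * (A * A * (2 * r + 1) * (n / D)) + 8 * (A * A * (2 + (r + 1) * r) * (n / c)) := by ring
        rw [e1]
        have e2 : 32 * (A * A * (2 * r + 1) * (n / D)) ≤ n := by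
          calc _ = 32 * A * A * (2 * r + 1) * (n / D) := by ring
            _ ≤ n := h9
        have e3 : 32 * (A * A * (2 + (r + 1) * r) * (n / c)) ≤ n := by
          rw [hc]
          calc _ = 32 * A * A * (2 + (r + 1) * r) * (n / (32 * A * A * (2 + (r + 1) * r))) := by ring
            _ ≤ n := h7
        omega

theorem final_pd (k : ℕ) : ∃ D : ℕ, 0 < D ∧ ∀ n ≥ D,
    ∃ F : Finset (Finset (Fin n × Bool)), F.card ≤ D * n ∧ (∀ c ∈ F, c.card ≤ D) ∧
      ∀ P : PP (Fin n) Bool, Fintype.card P.State ≤ 2 ^ (n / D) →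
        (∀ x l, P.Comp x l true → Models F x) →
        2 ^ (n / D) * Nat.card {x // ∃ l, P.Comp x l true ∧ l.length ≤ k * n} <
          Nat.card {x : Pt n // Models F x} := by
  classical
  obtain ⟨Q, r, N, hQ, hr, hN, hmain⟩ := main_rect (2 * k + 1)
  obtain ⟨D1, hD1, hcnf⟩ := exists_cnf Q N hQ hN
  obtain ⟨D2, hD2, hcls⟩ := classes_le k r hr N hN
  obtain ⟨D, hD⟩ : ∃ D : ℕ, D = D1 + D2 + 8 * N + 2 * Q + 2 * r + 1 := ⟨_, rfl⟩
  have hD0 : 0 < D := by omega
  refine ⟨D, hD0, ?_⟩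
  intro n hn
  obtain ⟨F, hF1, hF2, C, hC, hCc, hCR⟩ := hcnf n (by omega)
  refine ⟨F, hF1.trans (Nat.mul_le_mul_right _ (by omega)), fun c hc => (hF2 c hc).trans (by omega),
    ?_⟩
  intro P hPs hPf
  by_contra hneg
  push Not at hneg
  set G : Finset (Pt n) := univ.filter (fun x => ∃ l, P.Comp x l true ∧ l.length ≤ k * n)
    with hG
  have hGc : Nat.card {x // ∃ l, P.Comp x l true ∧ l.length ≤ k * n} = G.card := by
    rw [Nat.card_eq_fintype_card, Fintype.card_subtype]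
  have hZ : Nat.card {x : Pt n // Models F x} = C.card := by
    rw [Nat.card_eq_fintype_card, Fintype.card_subtype]
    congr 1
    ext x
    simp only [Finset.mem_filter, Finset.mem_univ, true_and]
    exact (hC x).symm
  rw [hGc, hZ] at hneg
  -- blocks
  obtain ⟨t, ht⟩ : ∃ t : ℕ, t = k * n / r + 1 := ⟨_, rfl⟩
  have ht1 : k * n < r * t := by
    rw [ht]; exact Nat.lt_mul_div_succ (k * n) hr
  have ht2 : r * (2 * t) ≤ (2 * k + 1) * n := by
    have h1 := Nat.mul_div_le (k * n) r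
    have h2 : 2 * r ≤ n := by omega
    rw [ht]
    calc r * (2 * (k * n / r + 1)) = 2 * (r * (k * n / r)) + 2 * r := by ring
      _ ≤ 2 * (k * n) + n := by omega
      _ = (2 * k + 1) * n := by ring
  obtain ⟨B, hB1, hB2⟩ := blocks P r t hr true G (by
    intro x hx
    obtain ⟨l, hl, hl2⟩ := (Finset.mem_filter.1 hx).2
    exact ⟨l, hl, lt_of_le_of_lt hl2 ht1⟩)
  -- the size
  have hDD : 2 ^ (n / D) ≤ 2 ^ (n / D2) :=
    Nat.pow_le_pow_right (by norm_num) (Nat.div_le_div_left (by omega) hD2)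
  have hcl := hcls n (by omega) (Fintype.card P.State) (hPs.trans hDD)
  rw [← ht] at hcl
  set E := r * (Fintype.card P.State * (Fintype.card P.State *
        ((r * t + 1) * (r * t + 1) ^ r))) ^ r with hE
  have hE2 : 2 ^ (n / D2) * E ≤ 2 ^ (n / (8 * N)) := by
    refine le_trans ?_ hcl
    calc 2 ^ (n / D2) * E ≤ (2 ^ (n / D2) * E) ^ N := by
          rcases Nat.eq_zero_or_pos (2 ^ (n / D2) * E) with h0 | h0
          · rw [h0]; exact Nat.zero_le _
          · exact Nat.le_self_pow (by omega) _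
      _ ≤ N * (2 ^ (n / D2) * E) ^ N := Nat.le_mul_of_pos_left _ hN
  have hexp : (8 * (n / (32 * N)) + 1) + n / (8 * N) ≤ n / N := by
    rw [Nat.le_div_iff_mul_le hN]
    have h1 : 32 * N * (n / (32 * N)) ≤ n := Nat.mul_div_le n (32 * N)
    have h2 : 8 * N * (n / (8 * N)) ≤ n := Nat.mul_div_le n (8 * N)
    have h4 : 8 * (((8 * (n / (32 * N)) + 1) + n / (8 * N)) * N) =
        2 * (32 * N * (n / (32 * N))) + 8 * N + 8 * N * (n / (8 * N)) := by ring
    omega
  have hKbig : 2 ^ n ≤ 2 ^ (n / N) * B.K.card := by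
    calc 2 ^ n ≤ 2 ^ (8 * (n / (32 * N)) + 1) * C.card := hCc
      _ ≤ 2 ^ (8 * (n / (32 * N)) + 1) * (2 ^ (n / D) * G.card) := Nat.mul_le_mul_left _ hneg
      _ ≤ 2 ^ (8 * (n / (32 * N)) + 1) * (2 ^ (n / D2) * (E * B.K.card)) := by
          apply Nat.mul_le_mul_left
          exact Nat.mul_le_mul hDD hB1
      _ = 2 ^ (8 * (n / (32 * N)) + 1) * ((2 ^ (n / D2) * E) * B.K.card) := by ring
      _ ≤ 2 ^ (8 * (n / (32 * N)) + 1) * (2 ^ (n / (8 * N)) * B.K.card) := by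
          apply Nat.mul_le_mul_left
          exact Nat.mul_le_mul_right _ hE2
      _ = 2 ^ ((8 * (n / (32 * N)) + 1) + n / (8 * N)) * B.K.card := by rw [pow_add]; ring
      _ ≤ 2 ^ (n / N) * B.K.card :=
          Nat.mul_le_mul_right _ (Nat.pow_le_pow_right (by norm_num) hexp)
  obtain ⟨a, b, g, ha, hb, hga, hgb, ⟨R⟩⟩ := hmain n (by omega) (2 * t) ht2 B hKbig
  have hKC : B.K ⊆ C := by
    intro x hx
    obtain ⟨l, hl⟩ := hB2 x hx
    exact (hC x).2 (hPf x l hl)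
  have hlog : ∀ e : ℕ, n ≤ Q * e → 100 * g ≤ e → n / (2 * Q) ≤ e - g := by
    intro e h1 h2
    have h3 : n / (2 * Q) ≤ e / 2 := by
      rw [Nat.div_le_iff_le_mul_add_pred (by omega)]
      have h4 : e < 2 * (e / 2) + 2 := by omega
      have h5 : Q * e ≤ Q * (2 * (e / 2) + 1) := Nat.mul_le_mul_left _ (by omega)
      have h6 : Q * (2 * (e / 2) + 1) = 2 * Q * (e / 2) + Q := by ring
      omega
    omega
  rcases norect_rect C B.K hKC hCR R with h | h
  · have h1 : 2 ^ (a - g) ≤ R.X.card := by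
      have h2 := R.nX
      have h3 : 2 ^ g * 2 ^ (a - g) ≤ 2 ^ g * R.X.card := by
        rw [← pow_add]
        have : g + (a - g) = a := by omega
        rw [this]; exact h2
      exact Nat.le_of_mul_le_mul_left h3 (by positivity)
    have h4 : 2 ^ (n / (2 * Q)) ≤ 2 ^ (a - g) := Nat.pow_le_pow_right (by norm_num) (hlog a ha hga)
    omega
  · have h1 : 2 ^ (b - g) ≤ R.Y.card := by
      have h2 := R.nY
      have h3 : 2 ^ g * 2 ^ (b - g) ≤ 2 ^ g * R.Y.card := by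
        rw [← pow_add]
        have : g + (b - g) = b := by omega
        rw [this]; exact h2
      exact Nat.le_of_mul_le_mul_left h3 (by positivity)
    have h4 : 2 ^ (n / (2 * Q)) ≤ 2 ^ (b - g) := Nat.pow_le_pow_right (by norm_num) (hlog b hb hgb)
    omega

end Pool.Agent.W896.PD
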