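import Pool.Agent.W896.PD.Der

/-!
# Decomposition of the computation of a pushdown program into short pieces
-/

set_option autoImplicit false

namespace Pool.Agent.W896.PD

variable {ι β : Type}

/-- The holes given by the entries and exits `q`, `p` and the indices `g`. -/
def Hof {S : Type} (q p : ℕ → S) (g : ℕ → Option ℕ) : ℕ → Option (S × S) :=
  fun c => (g c).map (fun i => (q i, p i))

theorem Hof_congr {S : Type} {q q' p p' : ℕ → S} {g : ℕ → Option ℕ}
    (h : ∀ c i, g c = some i → q i = q' i ∧ p i = p' i) : Hof q p g = Hof q' p' g := by
  funext c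
  unfold Hof
  cases hg : g c with
  | none => rfl
  | some i =>
    obtain ⟨h1, h2⟩ := h c i hg
    simp only [Option.map_some, h1, h2]

theorem Hof_none {S : Type} {q p : ℕ → S} {g : ℕ → Option ℕ} {c : ℕ} (h : g c = none) :
    Hof q p g c = none := by
  unfold Hof; rw [h]; rfl

theorem Hof_some {S : Type} {q p : ℕ → S} {g : ℕ → Option ℕ} {c i : ℕ} (h : g c = some i) :
    Hof q p g c = some (q i, p i) := by
  unfold Hof; rw [h]; rfl

/-- The shape of the holes: each index occurs at most once, indices are less than `m` and the
positions are less than `e`. -/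
def Shape (g : ℕ → Option ℕ) (m e : ℕ) : Prop :=
  (∀ c i, g c = some i → i < m ∧ c < e) ∧ ∀ c c' i, g c = some i → g c' = some i → c = c'

/-- The piece `j` has a derivation with at most `2 t` queries. -/
def Val (P : PP ι β) (x : ι → Bool) (t L : ℕ) (q p : ℕ → P.State) (e : ℕ → ℕ)
    (g : ℕ → ℕ → Option ℕ) (j : ℕ) : Prop :=
  (∃ l, l.length ≤ 2 * t ∧ Der P (Hof q p (g j)) x (q j) 0 l (p j) (e j)) ∧
    Shape (g j) j (e j) ∧ e j ≤ L

theorem Val.congr {P : PP ι β} {x : ι → Bool} {t L : ℕ} {q p q' p' : ℕ → P.State} {e e' : ℕ → ℕ}
    {g g' : ℕ → ℕ → Option ℕ} {j : ℕ} (h : Val P x t L q p e g j)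
    (hq : ∀ i ≤ j, q i = q' i) (hp : ∀ i ≤ j, p i = p' i) (he : e j = e' j) (hg : g j = g' j) :
    Val P x t L q' p' e' g' j := by
  obtain ⟨⟨l, hl, hd⟩, hs, hL⟩ := h
  have h1 : Hof q p (g j) = Hof q' p' (g j) := Hof_congr (fun c i hci => by
    have := (hs.1 c i hci).1
    exact ⟨hq i (by omega), hp i (by omega)⟩)
  refine ⟨⟨l, hl, ?_⟩, ?_, ?_⟩
  · rw [← hg, ← he, ← h1, ← hq j le_rfl, ← hp j le_rfl]; exact hd
  · rw [← hg, ← he]; exact hs
  · rw [← he]; exact hL

theorem Der.none_len {P : PP ι β} {x : ι → Bool} {q p : P.State} {c c' : ℕ} {l : List ι}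
    (h : Der P (fun _ => none) x q c l p c') : c' = c + l.length := by
  generalize hH : (fun _ => none : ℕ → Option (P.State × P.State)) = H at h
  induction h with
  | hole h => rw [← hH] at h; simp at h
  | stop => simp
  | query _ _ _ ih => simp only [List.length_cons]; omega
  | cont _ _ _ _ _ ih1 ih2 => simp only [List.length_append]; omega
  | halt _ _ _ _ ih => exact ih

/-- The recursion. -/
theorem decomp_aux {P : PP ι β} {x : ι → Bool} {t L : ℕ} (ht : 1 ≤ t) {s₀ pf : P.State} :
    ∀ (N m : ℕ) (q p : ℕ → P.State) (e : ℕ → ℕ) (g : ℕ → ℕ → Option ℕ) (go : ℕ → Option ℕ)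
      (l : List ι) (eo : ℕ), l.length ≤ N → (∀ j < m, Val P x t L q p e g j) →
      Der P (Hof q p go) x s₀ 0 l pf eo → Shape go m eo → eo ≤ L →
      ∃ (m' : ℕ) (q' p' : ℕ → P.State) (e' : ℕ → ℕ) (g' : ℕ → ℕ → Option ℕ),
        m' * t ≤ m * t + l.length ∧ (∀ j ≤ m', Val P x t L q' p' e' g' j) ∧ q' m' = s₀ ∧
        p' m' = pf := by
  intro N
  induction N using Nat.strong_induction_on with
  | _ N ih =>
    intro m q p e g go l eo hlN hval hd hsh heo
    rcases Nat.lt_or_ge (2 * t) l.length with hbig | hsmall
    · obtain ⟨q₀, p₀, c₀, e₀, l₀, h1, h2, h3, h4, h5, h6, h7⟩ := Der.cut ht hd (by omega)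
      set q' : ℕ → P.State := Function.update q m q₀ with hq'
      set p' : ℕ → P.State := Function.update p m p₀ with hp'
      have eq' : ∀ i < m, q i = q' i := fun i hi => by
        rw [hq', Function.update_of_ne (by omega)]
      have ep' : ∀ i < m, p i = p' i := fun i hi => by
        rw [hp', Function.update_of_ne (by omega)]
      set gi : ℕ → Option ℕ := fun c => if c < e₀ then go (c₀ + c) else none with hgi
      set go' : ℕ → Option ℕ := fun c => if c < c₀ then go c else if c = c₀ then some m else
        go (c + (e₀ - 1)) with hgo'
      have ego : Hof q p go = Hof q' p' go := Hof_congr (fun c i hci => by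
        have := (hsh.1 c i hci).1
        exact ⟨eq' i this, ep' i this⟩)
      rw [ego] at h4 h7 hd
      obtain ⟨l', c'', h8, h9, h10⟩ := h7 (Hof q' p' go') (by
        intro j hj
        simp only [Hof, hgo', if_pos hj]) (by
        have : go' c₀ = some m := by simp only [hgo', lt_irrefl, if_false, if_true]
        rw [Hof_some this, hq', hp', Function.update_self, Function.update_self]) (by
        intro j hj
        have a1 : ¬ j < c₀ := by omega
        have a2 : ¬ j = c₀ := by omega
        simp only [Hof, hgo', if_neg a1, if_neg a2])
      obtain ⟨c', h11, h12⟩ := Der.inner (c₀ := c₀) (e := e₀) (H' := Hof q' p' gi) (by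
        intro j hj
        simp only [Hof, hgi, if_pos hj]) (by
        apply Hof_none
        simp only [hgi, lt_irrefl, if_false]) h4 0 rfl le_rfl
      have h13 : c' = e₀ := by omega
      rw [h13] at h12
      -- the new data
      set e' : ℕ → ℕ := Function.update e m e₀ with he'
      set g' : ℕ → ℕ → Option ℕ := Function.update g m gi with hg'
      have hval' : ∀ j < m + 1, Val P x t L q' p' e' g' j := by
        intro j hj
        rcases Nat.lt_or_ge j m with hjm | hjm
        · refine (hval j hjm).congr (fun i hi => eq' i (by omega)) (fun i hi => ep' i (by omega)) ?_ ?_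
          · rw [he', Function.update_of_ne (by omega)]
          · rw [hg', Function.update_of_ne (by omega)]
        · have : j = m := by omega
          subst this
          refine ⟨⟨l₀, h6, ?_⟩, ?_, ?_⟩
          · rw [hg', he', Function.update_self, Function.update_self]
            have e1 : q' j = q₀ := by rw [hq', Function.update_self]
            have e2 : p' j = p₀ := by rw [hp', Function.update_self]
            rw [e1, e2]; exact h12
          · rw [hg', he', Function.update_self, Function.update_self]
            constructor
            · intro c i hci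
              simp only [hgi] at hci
              split_ifs at hci with hc
              exact ⟨(hsh.1 _ i hci).1, hc⟩
            · intro c d i hci hdi
              simp only [hgi] at hci hdi
              split_ifs at hci hdi with hc hd'
              have := hsh.2 _ _ i hci hdi
              omega
          · rw [he', Function.update_self]; omega
      have hsh' : Shape go' (m + 1) c'' := by
        constructor
        · intro c i hci
          simp only [hgo'] at hci
          split_ifs at hci with hc hc2
          · have := (hsh.1 _ i hci).1
            exact ⟨by omega, by omega⟩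
          · simp only [Option.some.injEq] at hci
            exact ⟨by omega, by omega⟩
          · have := hsh.1 _ i hci
            exact ⟨by omega, by omega⟩
        · intro c d i hci hdi
          simp only [hgo'] at hci hdi
          split_ifs at hci hdi with hc hc2 hc3 hc4 hc5 hc6 hc7 hc8
          · exact hsh.2 _ _ i hci hdi
          · simp only [Option.some.injEq] at hdi
            have := (hsh.1 _ i hci).1
            omega
          · have := hsh.2 _ _ i hci hdi
            omega
          · simp only [Option.some.injEq] at hci
            have := (hsh.1 _ i hdi).1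
            omega
          · omega
          · simp only [Option.some.injEq] at hci
            have := (hsh.1 _ i hdi).1
            omega
          · have := hsh.2 _ _ i hci hdi
            omega
          · simp only [Option.some.injEq] at hdi
            have := (hsh.1 _ i hci).1
            omega
          · have := hsh.2 _ _ i hci hdi
            omega
      obtain ⟨m', q'', p'', e'', g'', b1, b2, b3, b4⟩ := ih l'.length (by omega) (m + 1) q' p' e' g'
        go' l' c'' le_rfl hval' h8 hsh' (by omega)
      refine ⟨m', q'', p'', e'', g'', ?_, b2, b3, b4⟩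
      have : (m + 1) * t = m * t + t := by ring
      omega
    · refine ⟨m, Function.update q m s₀, Function.update p m pf, Function.update e m eo,
        Function.update g m go, by omega, ?_, by rw [Function.update_self],
        by rw [Function.update_self]⟩
      intro j hj
      rcases Nat.lt_or_ge j m with hjm | hjm
      · refine (hval j hjm).congr (fun i hi => ?_) (fun i hi => ?_) ?_ ?_ <;>
          rw [Function.update_of_ne (by omega)]
      · have : j = m := by omega
        subst this
        have ego : Hof q p go = Hof (Function.update q j s₀) (Function.update p j pf) go :=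
          Hof_congr (fun c i hci => by
            have := (hsh.1 c i hci).1
            constructor <;> rw [Function.update_of_ne (by omega)])
        refine ⟨⟨l, hsmall, ?_⟩, ?_, ?_⟩
        · rw [Function.update_self, Function.update_self, Function.update_self,
            Function.update_self, ← ego]
          exact hd
        · rw [Function.update_self, Function.update_self]; exact hsh
        · rw [Function.update_self]; exact heo

/-- The decomposition of a computation with fewer than `r t` queries into at most `r` pieces with
at most `2 t` queries. -/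
theorem decomp {P : PP ι β} {x : ι → Bool} {r t : ℕ} {pf : P.State} {l : List ι}
    (h : Ret P x P.start l pf) (hl : l.length < r * t) :
    ∃ (m : ℕ) (q p : ℕ → P.State) (e : ℕ → ℕ) (g : ℕ → ℕ → Option ℕ),
        m < r ∧ (∀ j ≤ m, Val P x t (r * t) q p e g j) ∧ q m = P.start ∧ p m = pf := by
  have ht : 1 ≤ t := by
    rcases Nat.eq_zero_or_pos t with h0 | h0
    · rw [h0] at hl; simp at hl
    · exact h0
  obtain ⟨c', hc'⟩ := h.toDer 0
  have h1 := hc'.none_len
  have h2 : (fun _ => none : ℕ → Option (P.State × P.State)) =
      Hof (fun _ => P.start) (fun _ => P.start) (fun _ => none) := rfl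
  rw [h2] at hc'
  obtain ⟨m', q', p', e', g', a1, a2, a3, a4⟩ := decomp_aux (L := r * t) ht l.length 0
    (fun _ => P.start) (fun _ => P.start) (fun _ => 0) (fun _ _ => none) (fun _ => none) l c'
    le_rfl (fun j hj => by omega) hc' ⟨fun c i h => by simp at h, fun c c' i h => by simp at h⟩
    (by omega)
  refine ⟨m', q', p', e', g', ?_, a2, a3, a4⟩
  by_contra hcon
  push Not at hcon
  have : r * t ≤ m' * t := Nat.mul_le_mul_right _ hcon
  omega

/-- Putting the pieces together. -/
theorem compose {P : PP ι β} {z : ι → Bool} {t L m : ℕ} {q p : ℕ → P.State} {e : ℕ → ℕ}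
    {g : ℕ → ℕ → Option ℕ} (h : ∀ j ≤ m, Val P z t L q p e g j) :
    ∀ j ≤ m, ∃ l, Ret P z (q j) l (p j) := by
  intro j
  induction j using Nat.strong_induction_on with
  | _ j ih =>
    intro hj
    obtain ⟨⟨l, -, hd⟩, hs, -⟩ := h j hj
    refine hd.fill ?_
    intro c q' p' hc
    cases hg : g j c with
    | none => rw [Hof_none hg] at hc; simp at hc
    | some i =>
      rw [Hof_some hg] at hc
      simp only [Option.some.injEq, Prod.mk.injEq] at hc
      obtain ⟨rfl, rfl⟩ := hc
      have h1 := (hs.1 c i hg).1
      exact ih i h1 (by omega)

end Pool.Agent.W896.PD
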