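import Mathlib

/-!
# Pushdown programs: definitions

A pushdown program is a branching program with a stack of unlimited height.
-/

set_option autoImplicit false

namespace Pool.Agent.W896.PD

/-- What is done in a node of a pushdown program: `query i nxt` reads the variable `i` and
proceeds to the node `nxt b`, `b` being its value; `push a q` puts the symbol `a` on the stack and
proceeds to the node `q`; `pop nxt` removes the symbol `a` on the top of the stack and proceeds to
the node `nxt a` (if the stack is empty then the computation ends without output); `out b` ends
the computation with the output `b`. -/
inductive Act (ι β S Γ : Type) where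
  | query (i : ι) (nxt : Bool → S)
  | push (a : Γ) (q : S)
  | pop (nxt : Γ → S)
  | out (b : β)

/-- A (deterministic) pushdown program over the set `ι` of Boolean variables, with outputs in `β`.
There are finitely many nodes; the stack symbols may be the elements of any type, and there is no
bound on the height of the stack or on the number of steps. -/
structure PP (ι β : Type) where
  /-- the nodes -/
  State : Type
  /-- there are finitely many of them -/
  [fintype : Fintype State]
  /-- the stack symbols -/
  Sym : Type
  /-- the start node -/
  start : State
  /-- what is done in a node -/
  act : State → Act ι β State Sym

attribute [instance] PP.fintype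

variable {ι β : Type}

/-- `P.Runs x q σ l b`: on the input `x`, from the node `q` with the stack `σ`, the program `P`
queries the variables of the list `l`, in this order, and then outputs `b`. -/
inductive PP.Runs (P : PP ι β) (x : ι → Bool) : P.State → List P.Sym → List ι → β → Prop
  | out {q : P.State} {σ : List P.Sym} {b : β} (h : P.act q = Act.out b) : Runs P x q σ [] b
  | query {q : P.State} {σ : List P.Sym} {i : ι} {nxt : Bool → P.State} {l : List ι} {b : β}
      (h : P.act q = Act.query i nxt) (r : Runs P x (nxt (x i)) σ l b) : Runs P x q σ (i :: l) b
  | push {q : P.State} {σ : List P.Sym} {a : P.Sym} {q' : P.State} {l : List ι} {b : β}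
      (h : P.act q = Act.push a q') (r : Runs P x q' (a :: σ) l b) : Runs P x q σ l b
  | pop {q : P.State} {a : P.Sym} {σ : List P.Sym} {nxt : P.Sym → P.State} {l : List ι} {b : β}
      (h : P.act q = Act.pop nxt) (r : Runs P x (nxt a) σ l b) : Runs P x q (a :: σ) l b

/-- On the input `x` the program, started with the empty stack, queries the variables of the list
`l`, in this order, and then outputs `b`. -/
def PP.Comp (P : PP ι β) (x : ι → Bool) (l : List ι) (b : β) : Prop := P.Runs x P.start [] l b

end Pool.Agent.W896.PD
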