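import Pool.Agent.W896.PD.Defs

/-!
# Derivations with holes

`Ret` is the big-step semantics of a pushdown program: from the node `q` the program reads `l`
and arrives at a node `p` which either gives an output or pops a symbol that was on the stack
before. `Der` is the same with positions (numbers of events) and with holes: at the position `c`,
in the node `q`, a part of the computation may be skipped.
-/

set_option autoImplicit false

namespace Pool.Agent.W896.PD

variable {ι β : Type}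

/-- The node gives an output or pops. -/
def Stop (P : PP ι β) (q : P.State) : Prop :=
  (∃ nxt, P.act q = Act.pop nxt) ∨ ∃ b, P.act q = Act.out b

/-- Big-step semantics. -/
inductive Ret (P : PP ι β) (x : ι → Bool) : P.State → List ι → P.State → Prop
  | stop {q : P.State} (h : Stop P q) : Ret P x q [] q
  | query {q : P.State} {i : ι} {nxt : Bool → P.State} {l : List ι} {p : P.State}
      (h : P.act q = Act.query i nxt) (r : Ret P x (nxt (x i)) l p) : Ret P x q (i :: l) p
  | cont {q : P.State} {a : P.Sym} {q' : P.State} {l₁ l₂ : List ι} {p₁ p : P.State}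
      {nxt : P.Sym → P.State} (h : P.act q = Act.push a q') (r₁ : Ret P x q' l₁ p₁)
      (h₁ : P.act p₁ = Act.pop nxt) (r₂ : Ret P x (nxt a) l₂ p) : Ret P x q (l₁ ++ l₂) p
  | halt {q : P.State} {a : P.Sym} {q' : P.State} {l : List ι} {p : P.State} {b : β}
      (h : P.act q = Act.push a q') (r : Ret P x q' l p) (h₁ : P.act p = Act.out b) :
      Ret P x q l p

/-- At the position `c` there is no hole with the entry `q`. -/
def Free {P : PP ι β} (H : ℕ → Option (P.State × P.State)) (q : P.State) (c : ℕ) : Prop :=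
  ∀ p, H c ≠ some (q, p)

/-- Big-step semantics with positions and holes. -/
inductive Der (P : PP ι β) (H : ℕ → Option (P.State × P.State)) (x : ι → Bool) :
    P.State → ℕ → List ι → P.State → ℕ → Prop
  | hole {q : P.State} {c : ℕ} {p : P.State} (h : H c = some (q, p)) : Der P H x q c [] p (c + 1)
  | stop {q : P.State} {c : ℕ} (hf : Free H q c) (h : Stop P q) : Der P H x q c [] q c
  | query {q : P.State} {c : ℕ} {i : ι} {nxt : Bool → P.State} {l : List ι} {p : P.State} {c' : ℕ}
      (hf : Free H q c) (h : P.act q = Act.query i nxt) (r : Der P H x (nxt (x i)) (c + 1) l p c') :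
      Der P H x q c (i :: l) p c'
  | cont {q : P.State} {c : ℕ} {a : P.Sym} {q' : P.State} {l₁ l₂ : List ι} {p₁ p : P.State}
      {nxt : P.Sym → P.State} {c₁ c' : ℕ} (hf : Free H q c) (h : P.act q = Act.push a q')
      (r₁ : Der P H x q' c l₁ p₁ c₁) (h₁ : P.act p₁ = Act.pop nxt)
      (r₂ : Der P H x (nxt a) c₁ l₂ p c') : Der P H x q c (l₁ ++ l₂) p c'
  | halt {q : P.State} {c : ℕ} {a : P.Sym} {q' : P.State} {l : List ι} {p : P.State} {b : β}
      {c' : ℕ} (hf : Free H q c) (h : P.act q = Act.push a q') (r : Der P H x q' c l p c')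
      (h₁ : P.act p = Act.out b) : Der P H x q c l p c'

/-- the number of positions is at least the number of queries -/
theorem Der.le {P : PP ι β} {H : ℕ → Option (P.State × P.State)} {x : ι → Bool} {q p : P.State}
    {c c' : ℕ} {l : List ι} (h : Der P H x q c l p c') : c + l.length ≤ c' := by
  induction h with
  | hole => simp
  | stop => simp
  | query _ _ _ ih => simp only [List.length_cons]; omega
  | cont _ _ _ _ _ ih1 ih2 => simp only [List.length_append]; omega
  | halt _ _ _ _ ih => exact ih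

/-- If two inputs agree on the variables which are read on both of them, then the derivations are
the same. -/
theorem Der.agree {P : PP ι β} {H : ℕ → Option (P.State × P.State)} {x y : ι → Bool}
    {q p : P.State} {c c' : ℕ} {l : List ι} (h : Der P H x q c l p c') :
    ∀ {l₂ : List ι} {p₂ : P.State} {c₂ : ℕ}, Der P H y q c l₂ p₂ c₂ →
      (∀ i ∈ l, i ∈ l₂ → x i = y i) → l = l₂ ∧ p = p₂ ∧ c' = c₂ := by
  induction h with
  | @hole q c p h =>
    intro l₂ p₂ c₂ h2 _
    cases h2 with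
    | hole h' =>
      rw [h] at h'
      simp only [Option.some.injEq, Prod.mk.injEq] at h'
      exact ⟨rfl, h'.2, rfl⟩
    | stop hf _ => exact absurd h (hf p)
    | query hf _ _ => exact absurd h (hf p)
    | cont hf _ _ _ _ => exact absurd h (hf p)
    | halt hf _ _ _ => exact absurd h (hf p)
  | @stop q c hf hs =>
    intro l₂ p₂ c₂ h2 _
    cases h2 with
    | hole h' => exact absurd h' (hf _)
    | stop _ _ => exact ⟨rfl, rfl, rfl⟩
    | query _ h' _ => rcases hs with ⟨n, hn⟩ | ⟨n, hn⟩ <;> rw [hn] at h' <;> simp at h'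
    | cont _ h' _ _ _ => rcases hs with ⟨n, hn⟩ | ⟨n, hn⟩ <;> rw [hn] at h' <;> simp at h'
    | halt _ h' _ _ => rcases hs with ⟨n, hn⟩ | ⟨n, hn⟩ <;> rw [hn] at h' <;> simp at h'
  | @query q c i nxt l p c' hf h r ih =>
    intro l₂ p₂ c₂ h2 hxy
    cases h2 with
    | hole h' => exact absurd h' (hf _)
    | stop _ hs => rcases hs with ⟨n, hn⟩ | ⟨n, hn⟩ <;> rw [hn] at h <;> simp at h
    | query _ h' r' =>
      rw [h] at h'
      simp only [Act.query.injEq] at h'
      obtain ⟨rfl, rfl⟩ := h'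
      have hi := hxy i (List.mem_cons_self ..) (List.mem_cons_self ..)
      rw [← hi] at r'
      obtain ⟨rfl, rfl, rfl⟩ := ih r' (fun j hj hj' =>
        hxy j (List.mem_cons_of_mem _ hj) (List.mem_cons_of_mem _ hj'))
      exact ⟨rfl, rfl, rfl⟩
    | cont _ h' _ _ _ => rw [h] at h'; simp at h'
    | halt _ h' _ _ => rw [h] at h'; simp at h'
  | @cont q c a q' l₁ l₂ p₁ p nxt c₁ c' hf h r₁ h₁ r₂ ih1 ih2 =>
    intro l₃ p₂ c₂ h2 hxy
    cases h2 with
    | hole h' => exact absurd h' (hf _)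
    | stop _ hs => rcases hs with ⟨n, hn⟩ | ⟨n, hn⟩ <;> rw [hn] at h <;> simp at h
    | query _ h' _ => rw [h] at h'; simp at h'
    | cont _ h' r₁' h₁' r₂' =>
      rw [h] at h'
      simp only [Act.push.injEq] at h'
      obtain ⟨rfl, rfl⟩ := h'
      obtain ⟨rfl, rfl, rfl⟩ := ih1 r₁' (fun j hj hj' =>
        hxy j (List.mem_append_left _ hj) (List.mem_append_left _ hj'))
      rw [h₁] at h₁'
      simp only [Act.pop.injEq] at h₁'
      obtain rfl := h₁'
      obtain ⟨rfl, rfl, rfl⟩ := ih2 r₂' (fun j hj hj' =>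
        hxy j (List.mem_append_right _ hj) (List.mem_append_right _ hj'))
      exact ⟨rfl, rfl, rfl⟩
    | halt _ h' r' h₁' =>
      rw [h] at h'
      simp only [Act.push.injEq] at h'
      obtain ⟨rfl, rfl⟩ := h'
      obtain ⟨rfl, rfl, rfl⟩ := ih1 r' (fun j hj hj' =>
        hxy j (List.mem_append_left _ hj) hj')
      rw [h₁] at h₁'
      simp at h₁'
  | @halt q c a q' l p b c' hf h r h₁ ih =>
    intro l₃ p₂ c₂ h2 hxy
    cases h2 with
    | hole h' => exact absurd h' (hf _)
    | stop _ hs => rcases hs with ⟨n, hn⟩ | ⟨n, hn⟩ <;> rw [hn] at h <;> simp at h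
    | query _ h' _ => rw [h] at h'; simp at h'
    | cont _ h' r₁' h₁' r₂' =>
      rw [h] at h'
      simp only [Act.push.injEq] at h'
      obtain ⟨rfl, rfl⟩ := h'
      obtain ⟨rfl, rfl, rfl⟩ := ih r₁' (fun j hj hj' =>
        hxy j hj (List.mem_append_left _ hj'))
      rw [h₁] at h₁'
      simp at h₁'
    | halt _ h' r' h₁' =>
      rw [h] at h'
      simp only [Act.push.injEq] at h'
      obtain ⟨rfl, rfl⟩ := h'
      obtain ⟨rfl, rfl, rfl⟩ := ih r' hxy
      exact ⟨rfl, rfl, rfl⟩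

theorem Der.unique {P : PP ι β} {H : ℕ → Option (P.State × P.State)} {x : ι → Bool}
    {q p : P.State} {c c' : ℕ} {l : List ι} (h : Der P H x q c l p c')
    {l₂ : List ι} {p₂ : P.State} {c₂ : ℕ} (h2 : Der P H x q c l₂ p₂ c₂) :
    l = l₂ ∧ p = p₂ ∧ c' = c₂ := h.agree h2 (fun _ _ _ => rfl)

/-- An input which agrees with `x` on the variables that are read has the same derivation. -/
theorem Der.transfer {P : PP ι β} {H : ℕ → Option (P.State × P.State)} {x z : ι → Bool}
    {q p : P.State} {c c' : ℕ} {l : List ι} (h : Der P H x q c l p c') :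
    (∀ i ∈ l, z i = x i) → Der P H z q c l p c' := by
  induction h with
  | hole h => intro _; exact Der.hole h
  | stop hf h => intro _; exact Der.stop hf h
  | @query q c i nxt l p c' hf h r ih =>
    intro hz
    refine Der.query hf h ?_
    rw [hz i (List.mem_cons_self ..)]
    exact ih (fun j hj => hz j (List.mem_cons_of_mem _ hj))
  | cont hf h r₁ h₁ r₂ ih1 ih2 =>
    intro hz
    exact Der.cont hf h (ih1 (fun j hj => hz j (List.mem_append_left _ hj))) h₁
      (ih2 (fun j hj => hz j (List.mem_append_right _ hj)))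
  | halt hf h r h₁ ih => intro hz; exact Der.halt hf h (ih hz) h₁

/-- A new hole, which comes later. -/
theorem Der.before {P : PP ι β} {H H' : ℕ → Option (P.State × P.State)} {x : ι → Bool}
    {q₀ p₀ : P.State} {c₀ d₀ : ℕ} {l₀ : List ι} (h₀ : Der P H x q₀ c₀ l₀ p₀ d₀)
    (hlt : ∀ j < c₀, H' j = H j) (he : H' c₀ = some (q₀, p₀))
    {q p : P.State} {c c' : ℕ} {l : List ι} (h : Der P H x q c l p c') :
    c' ≤ c₀ → l.length < l₀.length → Der P H' x q c l p c' := by
  have key : ∀ {q p : P.State} {c c' : ℕ} {l : List ι}, Der P H x q c l p c' → Free H q c →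
      c' ≤ c₀ → l.length < l₀.length → Free H' q c := by
    intro q p c c' l hd hf hc hl p'
    have := hd.le
    rcases Nat.lt_or_ge c c₀ with h1 | h1
    · rw [hlt c h1]; exact hf p'
    · have h2 : c = c₀ := by omega
      subst h2
      rw [he]
      intro h3
      simp only [Option.some.injEq, Prod.mk.injEq] at h3
      obtain ⟨rfl, -⟩ := h3
      have h4 := (hd.unique h₀).1
      rw [h4] at hl
      omega
  induction h with
  | @hole q c p h => intro hc _; exact Der.hole (by rw [hlt c (by omega)]; exact h)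
  | @stop q c hf h => intro hc hl; exact Der.stop (key (Der.stop hf h) hf hc hl) h
  | @query q c i nxt l p c' hf h r ih =>
    intro hc hl
    refine Der.query (key (Der.query hf h r) hf hc hl) h (ih hc ?_)
    rw [List.length_cons] at hl
    omega
  | @cont q c a q' l₁ l₂ p₁ p nxt c₁ c' hf h r₁ h₁ r₂ ih1 ih2 =>
    intro hc hl
    have h3 := r₂.le
    have hl' := hl
    rw [List.length_append] at hl'
    exact Der.cont (key (Der.cont hf h r₁ h₁ r₂) hf hc hl) h (ih1 (by omega) (by omega)) h₁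
      (ih2 hc (by omega))
  | @halt q c a q' l p b c' hf h r h₁ ih =>
    intro hc hl
    exact Der.halt (key (Der.halt hf h r h₁) hf hc hl) h (ih hc hl) h₁

/-- Shifting the positions down. -/
theorem Der.shift {P : PP ι β} {H H' : ℕ → Option (P.State × P.State)} {x : ι → Bool}
    {c₀ δ : ℕ} (hH : ∀ j, c₀ ≤ j → H' j = H (j + δ))
    {q p : P.State} {d d' : ℕ} {l : List ι} (h : Der P H x q d l p d') :
    ∀ c, d = c + δ → c₀ ≤ c → ∃ c', d' = c' + δ ∧ Der P H' x q c l p c' := by
  have key : ∀ {q : P.State} {c : ℕ}, Free H q (c + δ) → c₀ ≤ c → Free H' q c := by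
    intro q c hf hc p'
    rw [hH c hc]; exact hf p'
  induction h with
  | @hole q d p h =>
    rintro c rfl hc
    exact ⟨c + 1, by omega, Der.hole (by rw [hH c hc]; exact h)⟩
  | @stop q d hf h =>
    rintro c rfl hc
    exact ⟨c, rfl, Der.stop (key hf hc) h⟩
  | @query q d i nxt l p d' hf h r ih =>
    rintro c rfl hc
    obtain ⟨c', h1, h2⟩ := ih (c + 1) (by omega) (by omega)
    exact ⟨c', h1, Der.query (key hf hc) h h2⟩
  | @cont q d a q' l₁ l₂ p₁ p nxt d₁ d' hf h r₁ h₁ r₂ ih1 ih2 =>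
    rintro c rfl hc
    obtain ⟨c₁, h3, h4⟩ := ih1 c rfl hc
    have h5 := h4.le
    obtain ⟨c', h1, h2⟩ := ih2 c₁ h3 (by omega)
    exact ⟨c', h1, Der.cont (key hf hc) h h4 h₁ h2⟩
  | @halt q d a q' l p b d' hf h r h₁ ih =>
    rintro c rfl hc
    obtain ⟨c', h1, h2⟩ := ih c rfl hc
    exact ⟨c', h1, Der.halt (key hf hc) h h2 h₁⟩

/-- The inner part of a derivation. -/
theorem Der.inner {P : PP ι β} {H H' : ℕ → Option (P.State × P.State)} {x : ι → Bool}
    {c₀ e : ℕ} (hH : ∀ j < e, H' j = H (c₀ + j)) (he : H' e = none)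
    {q p : P.State} {d d' : ℕ} {l : List ι} (h : Der P H x q d l p d') :
    ∀ c, d = c₀ + c → d' ≤ c₀ + e → ∃ c', d' = c₀ + c' ∧ Der P H' x q c l p c' := by
  have key : ∀ {q : P.State} {c : ℕ}, Free H q (c₀ + c) → c ≤ e → Free H' q c := by
    intro q c hf hc p'
    rcases Nat.lt_or_ge c e with h1 | h1
    · rw [hH c h1]; exact hf p'
    · have : c = e := by omega
      subst this
      rw [he]; simp
  induction h with
  | @hole q d p h =>
    rintro c rfl hc
    exact ⟨c + 1, by omega, Der.hole (by rw [hH c (by omega)]; exact h)⟩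
  | @stop q d hf h =>
    rintro c rfl hc
    exact ⟨c, rfl, Der.stop (key hf (by omega)) h⟩
  | @query q d i nxt l p d' hf h r ih =>
    rintro c rfl hc
    have h0 := r.le
    obtain ⟨c', h1, h2⟩ := ih (c + 1) (by omega) hc
    exact ⟨c', h1, Der.query (key hf (by omega)) h h2⟩
  | @cont q d a q' l₁ l₂ p₁ p nxt d₁ d' hf h r₁ h₁ r₂ ih1 ih2 =>
    rintro c rfl hc
    have e1 := r₁.le
    have e2 := r₂.le
    obtain ⟨c₁, h3, h4⟩ := ih1 c rfl (by omega)
    obtain ⟨c', h1, h2⟩ := ih2 c₁ h3 hc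
    exact ⟨c', h1, Der.cont (key hf (by omega)) h h4 h₁ h2⟩
  | @halt q d a q' l p b d' hf h r h₁ ih =>
    rintro c rfl hc
    have e1 := r.le
    obtain ⟨c', h1, h2⟩ := ih c rfl hc
    exact ⟨c', h1, Der.halt (key hf (by omega)) h h2 h₁⟩

/-- **Cutting.** A derivation with at least `t` queries contains one with between `t` and `2 t`
queries, which may be replaced by a hole. -/
theorem Der.cut {P : PP ι β} {H : ℕ → Option (P.State × P.State)} {x : ι → Bool} {t : ℕ}
    (ht : 1 ≤ t) {q p : P.State} {c c' : ℕ} {l : List ι} (h : Der P H x q c l p c') :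
    t ≤ l.length → ∃ (q₀ p₀ : P.State) (c₀ e : ℕ) (l₀ : List ι), c ≤ c₀ ∧ c₀ + e ≤ c' ∧ 1 ≤ e ∧
      Der P H x q₀ c₀ l₀ p₀ (c₀ + e) ∧ t ≤ l₀.length ∧ l₀.length ≤ 2 * t ∧
      ∀ H' : ℕ → Option (P.State × P.State), (∀ j < c₀, H' j = H j) → H' c₀ = some (q₀, p₀) →
        (∀ j, c₀ + 1 ≤ j → H' j = H (j + (e - 1))) →
        ∃ (l' : List ι) (c'' : ℕ), Der P H' x q c l' p c'' ∧ l'.length + l₀.length = l.length ∧
          c' = c'' + (e - 1) := by
  -- the whole derivation
  have whole : ∀ {q p : P.State} {c c' : ℕ} {l : List ι}, Der P H x q c l p c' →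
      t ≤ l.length → l.length ≤ 2 * t →
      ∃ (q₀ p₀ : P.State) (c₀ e : ℕ) (l₀ : List ι), c ≤ c₀ ∧ c₀ + e ≤ c' ∧ 1 ≤ e ∧
      Der P H x q₀ c₀ l₀ p₀ (c₀ + e) ∧ t ≤ l₀.length ∧ l₀.length ≤ 2 * t ∧
      ∀ H' : ℕ → Option (P.State × P.State), (∀ j < c₀, H' j = H j) → H' c₀ = some (q₀, p₀) →
        (∀ j, c₀ + 1 ≤ j → H' j = H (j + (e - 1))) →
        ∃ (l' : List ι) (c'' : ℕ), Der P H' x q c l' p c'' ∧ l'.length + l₀.length = l.length ∧
          c' = c'' + (e - 1) := by
    intro q p c c' l hd h1 h2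
    have h3 := hd.le
    refine ⟨q, p, c, c' - c, l, le_rfl, by omega, by omega, ?_, h1, h2, ?_⟩
    · rw [show c + (c' - c) = c' by omega]; exact hd
    · intro H' _ he _
      exact ⟨[], c + 1, Der.hole he, by simp, by omega⟩
  induction h with
  | hole => intro h; simp at h; omega
  | stop => intro h; simp at h; omega
  | @query q c i nxt l p c' hf h r ih =>
    intro hl
    rcases Nat.lt_or_ge (2 * t) (i :: l).length with h2 | h2
    · rw [List.length_cons] at h2
      obtain ⟨q₀, p₀, c₀, e, l₀, h3, h4, h5, h6, h7, h8, h9⟩ := ih (by omega)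
      refine ⟨q₀, p₀, c₀, e, l₀, by omega, h4, h5, h6, h7, h8, ?_⟩
      intro H' a1 a2 a3
      obtain ⟨l', c'', b1, b2, b3⟩ := h9 H' a1 a2 a3
      refine ⟨i :: l', c'', Der.query ?_ h b1, by simp only [List.length_cons]; omega, b3⟩
      intro p'
      rw [a1 c (by omega)]
      exact hf p'
    · exact whole (Der.query hf h r) hl h2
  | @cont q c a q' l₁ l₂ p₁ p nxt c₁ c' hf h r₁ h₁ r₂ ih1 ih2 =>
    intro hl
    rcases Nat.lt_or_ge (2 * t) (l₁ ++ l₂).length with h2 | h2
    · have hd := Der.cont hf h r₁ h₁ r₂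
      have h2' := h2
      rw [List.length_append] at h2'
      have g1 := r₁.le
      have g2 := r₂.le
      rcases Nat.lt_or_ge l₁.length t with hl1 | hl1
      · obtain ⟨q₀, p₀, c₀, e, l₀, h3, h4, h5, h6, h7, h8, h9⟩ := ih2 (by omega)
        refine ⟨q₀, p₀, c₀, e, l₀, by omega, h4, h5, h6, h7, h8, ?_⟩
        intro H' a1 a2 a3
        obtain ⟨l', c'', b1, b2, b3⟩ := h9 H' a1 a2 a3
        refine ⟨l₁ ++ l', c'', Der.cont ?_ h (Der.before h6 a1 a2 r₁ h3 (by omega)) h₁ b1,
          by simp only [List.length_append]; omega, b3⟩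
        intro p'
        rcases Nat.lt_or_ge c c₀ with h10 | h10
        · rw [a1 c h10]; exact hf p'
        · have h11 : c = c₀ := by omega
          rw [h11, a2]
          intro h12
          simp only [Option.some.injEq, Prod.mk.injEq] at h12
          obtain ⟨h13, -⟩ := h12
          rw [← h11, h13] at h6
          have h14 := (hd.unique h6).1
          rw [h14] at h2
          omega
      · obtain ⟨q₀, p₀, c₀, e, l₀, h3, h4, h5, h6, h7, h8, h9⟩ := ih1 hl1
        refine ⟨q₀, p₀, c₀, e, l₀, h3, by omega, h5, h6, h7, h8, ?_⟩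
        intro H' a1 a2 a3
        obtain ⟨l', c'', b1, b2, b3⟩ := h9 H' a1 a2 a3
        obtain ⟨c''', b4, b5⟩ := Der.shift (c₀ := c₀ + 1) (δ := e - 1) a3 r₂ c'' (by omega) (by omega)
        refine ⟨l' ++ l₂, c''', Der.cont ?_ h b1 h₁ b5,
          by simp only [List.length_append]; omega, b4⟩
        intro p'
        rcases Nat.lt_or_ge c c₀ with h10 | h10
        · rw [a1 c h10]; exact hf p'
        · have h11 : c = c₀ := by omega
          rw [h11, a2]
          intro h12
          simp only [Option.some.injEq, Prod.mk.injEq] at h12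
          obtain ⟨h13, -⟩ := h12
          rw [← h11, h13] at h6
          have h14 := (hd.unique h6).1
          rw [h14] at h2
          omega
    · exact whole (Der.cont hf h r₁ h₁ r₂) hl h2
  | @halt q c a q' l p b c' hf h r h₁ ih =>
    intro hl
    rcases Nat.lt_or_ge (2 * t) l.length with h2 | h2
    · have hd := Der.halt hf h r h₁
      obtain ⟨q₀, p₀, c₀, e, l₀, h3, h4, h5, h6, h7, h8, h9⟩ := ih hl
      refine ⟨q₀, p₀, c₀, e, l₀, h3, h4, h5, h6, h7, h8, ?_⟩
      intro H' a1 a2 a3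
      obtain ⟨l', c'', b1, b2, b3⟩ := h9 H' a1 a2 a3
      refine ⟨l', c'', Der.halt ?_ h b1 h₁, b2, b3⟩
      intro p'
      rcases Nat.lt_or_ge c c₀ with h10 | h10
      · rw [a1 c h10]; exact hf p'
      · have h11 : c = c₀ := by omega
        rw [h11, a2]
        intro h12
        simp only [Option.some.injEq, Prod.mk.injEq] at h12
        obtain ⟨h13, -⟩ := h12
        rw [← h11, h13] at h6
        have h14 := (hd.unique h6).1
        rw [h14] at h2
        omega
    · exact whole (Der.halt hf h r h₁) hl h2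

/-! ### Relation to the small-step semantics -/

/-- Filling the holes. -/
theorem Der.fill {P : PP ι β} {H : ℕ → Option (P.State × P.State)} {x : ι → Bool}
    (hH : ∀ c q p, H c = some (q, p) → ∃ l, Ret P x q l p)
    {q p : P.State} {c c' : ℕ} {l : List ι} (h : Der P H x q c l p c') : ∃ l', Ret P x q l' p := by
  induction h with
  | @hole q c p h => exact hH c q p h
  | @stop q c _ h => exact ⟨[], Ret.stop h⟩
  | query _ h _ ih => obtain ⟨l, hl⟩ := ih; exact ⟨_, Ret.query h hl⟩
  | cont _ h _ h₁ _ ih1 ih2 =>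
    obtain ⟨l, hl⟩ := ih1
    obtain ⟨l', hl'⟩ := ih2
    exact ⟨_, Ret.cont h hl h₁ hl'⟩
  | halt _ h _ h₁ ih => obtain ⟨l, hl⟩ := ih; exact ⟨_, Ret.halt h hl h₁⟩

theorem Ret.toDer {P : PP ι β} {x : ι → Bool} {q p : P.State} {l : List ι} (h : Ret P x q l p) :
    ∀ c, ∃ c', Der P (fun _ => none) x q c l p c' := by
  have hf : ∀ (q : P.State) (c : ℕ), Free (fun _ => none) q c := fun q c p => by simp
  induction h with
  | stop h => intro c; exact ⟨c, Der.stop (hf _ _) h⟩
  | query h _ ih =>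
    intro c
    obtain ⟨c', h'⟩ := ih (c + 1)
    exact ⟨c', Der.query (hf _ _) h h'⟩
  | cont h _ h₁ _ ih1 ih2 =>
    intro c
    obtain ⟨c', h'⟩ := ih1 c
    obtain ⟨c'', h''⟩ := ih2 c'
    exact ⟨c'', Der.cont (hf _ _) h h' h₁ h''⟩
  | halt h _ h₁ ih =>
    intro c
    obtain ⟨c', h'⟩ := ih c
    exact ⟨c', Der.halt (hf _ _) h h' h₁⟩

theorem Ret.toRuns {P : PP ι β} {x : ι → Bool} {q p : P.State} {l : List ι} (h : Ret P x q l p) :
    (∀ b, P.act p = Act.out b → ∀ σ, P.Runs x q σ l b) ∧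
    ∀ nxt, P.act p = Act.pop nxt → ∀ a σ l₂ b, P.Runs x (nxt a) σ l₂ b →
      P.Runs x q (a :: σ) (l ++ l₂) b := by
  induction h with
  | stop h =>
    exact ⟨fun b hb σ => PP.Runs.out hb, fun nxt hn a σ l₂ b r => PP.Runs.pop hn r⟩
  | query h _ ih =>
    exact ⟨fun b hb σ => PP.Runs.query h (ih.1 b hb σ),
      fun nxt hn a σ l₂ b r => PP.Runs.query h (ih.2 nxt hn a σ l₂ b r)⟩
  | @cont q a q' l₁ l₂ p₁ p nxt h _ h₁ _ ih1 ih2 =>
    refine ⟨fun b hb σ => PP.Runs.push h (ih1.2 nxt h₁ a σ l₂ b (ih2.1 b hb σ)), ?_⟩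
    intro nxt' hn a' σ l₃ b r
    rw [List.append_assoc]
    exact PP.Runs.push h (ih1.2 nxt h₁ a _ _ b (ih2.2 nxt' hn a' σ l₃ b r))
  | halt h _ h₁ ih =>
    refine ⟨fun b hb σ => PP.Runs.push h (ih.1 b hb _), ?_⟩
    intro nxt' hn a' σ l₃ b r
    rw [h₁] at hn
    simp at hn

/-- The computation from a node with a stack, decomposed according to the stack. -/
def Dec (P : PP ι β) (x : ι → Bool) : List P.Sym → P.State → List ι → β → Prop
  | [], q, l, b => ∃ p, Ret P x q l p ∧ P.act p = Act.out b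
  | a :: σ, q, l, b => (∃ p, Ret P x q l p ∧ P.act p = Act.out b) ∨
      ∃ l₁ p nxt l₂, Ret P x q l₁ p ∧ P.act p = Act.pop nxt ∧ Dec P x σ (nxt a) l₂ b ∧ l = l₁ ++ l₂

theorem Dec.ofOut {P : PP ι β} {x : ι → Bool} {σ : List P.Sym} {q p : P.State} {l : List ι} {b : β}
    (h : Ret P x q l p) (hb : P.act p = Act.out b) : Dec P x σ q l b := by
  cases σ with
  | nil => exact ⟨p, h, hb⟩
  | cons a σ => exact Or.inl ⟨p, h, hb⟩

theorem Dec.cons {P : PP ι β} {x : ι → Bool} {σ : List P.Sym} {q q' p₁ : P.State} {l₁ l₂ : List ι}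
    {b : β} {a : P.Sym} {nxt : P.Sym → P.State} (h : P.act q = Act.push a q')
    (r₁ : Ret P x q' l₁ p₁) (h₁ : P.act p₁ = Act.pop nxt) (d : Dec P x σ (nxt a) l₂ b) :
    Dec P x σ q (l₁ ++ l₂) b := by
  cases σ with
  | nil =>
    obtain ⟨p, h2, h3⟩ := d
    exact ⟨p, Ret.cont h r₁ h₁ h2, h3⟩
  | cons a' σ =>
    rcases d with ⟨p, h2, h3⟩ | ⟨l₃, p, nxt', l₄, h2, h3, h4, h5⟩
    · exact Or.inl ⟨p, Ret.cont h r₁ h₁ h2, h3⟩
    · refine Or.inr ⟨l₁ ++ l₃, p, nxt', l₄, Ret.cont h r₁ h₁ h2, h3, h4, ?_⟩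
      rw [h5, List.append_assoc]

theorem PP.Runs.toDec {P : PP ι β} {x : ι → Bool} {q : P.State} {σ : List P.Sym} {l : List ι}
    {b : β} (h : P.Runs x q σ l b) : Dec P x σ q l b := by
  induction h with
  | out h => exact Dec.ofOut (Ret.stop (Or.inr ⟨_, h⟩)) h
  | @query q σ i nxt l b h _ ih =>
    cases σ with
    | nil =>
      obtain ⟨p, h2, h3⟩ := ih
      exact ⟨p, Ret.query h h2, h3⟩
    | cons a σ =>
      rcases ih with ⟨p, h2, h3⟩ | ⟨l₃, p, nxt', l₄, h2, h3, h4, h5⟩
      · exact Or.inl ⟨p, Ret.query h h2, h3⟩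
      · exact Or.inr ⟨i :: l₃, p, nxt', l₄, Ret.query h h2, h3, h4, by rw [h5]; rfl⟩
  | @push q σ a q' l b h _ ih =>
    rcases ih with ⟨p, h2, h3⟩ | ⟨l₃, p, nxt', l₄, h2, h3, h4, h5⟩
    · exact Dec.ofOut (Ret.halt h h2 h3) h3
    · rw [h5]
      exact Dec.cons h h2 h3 h4
  | @pop q a σ nxt l b h _ ih =>
    exact Or.inr ⟨[], q, nxt, l, Ret.stop (Or.inl ⟨nxt, h⟩), h, ih, rfl⟩

/-- The computation of a program is a derivation that ends in an output node. -/
theorem comp_iff {P : PP ι β} {x : ι → Bool} {l : List ι} {b : β} :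
    P.Comp x l b ↔ ∃ p, Ret P x P.start l p ∧ P.act p = Act.out b := by
  constructor
  · intro h; exact h.toDec
  · rintro ⟨p, h1, h2⟩
    exact h1.toRuns.1 b h2 []

end Pool.Agent.W896.PD
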