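import Pool.Agent.W896.PD.Cnf
import Pool.Agent.H538R4.SP.Fix

/-!
# Pushdown programs with some variables fixed
-/

set_option autoImplicit false

open Finset

namespace Pool.Agent.W896.PD

open Pool.Agent.H554R2.Sem Pool.Agent.H554R2.Cnf Pool.Agent.H538R4.SP

variable {V β : Type} {n : ℕ}

/-- The program with the variables outside the range of `p` replaced by the constants `b v`. A
query of such a variable is replaced by pushing and popping a dummy symbol. -/
@[reducible] noncomputable def fixPD (p : Fin n → V) (b : V → Bool) (P : PP V β) :
    PP (Fin n) β where
  State := P.State × Bool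
  Sym := Option P.Sym
  start := (P.start, true)
  act := fun s =>
    match s.2 with
    | true => match P.act s.1 with
      | Act.query v nxt => match idx p v with
        | some i => Act.query i (fun c => (nxt c, true))
        | none => Act.push none (nxt (b v), false)
      | Act.push a q => Act.push (some a) (q, true)
      | Act.pop nxt => Act.pop (fun a => match a with
        | some a => (nxt a, true)
        | none => s)
      | Act.out c => Act.out c
    | false => Act.pop (fun _ => (s.1, true))

theorem fixPD_card (p : Fin n → V) (b : V → Bool) (P : PP V β) :
    Fintype.card (fixPD p b P).State = Fintype.card P.State * 2 := by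
  show Fintype.card (P.State × Bool) = _
  rw [Fintype.card_prod, Fintype.card_bool]

theorem fixPD_complete {p : Fin n → V} (hp : Function.Injective p) (b : V → Bool) (P : PP V β)
    (x : Pt n) {q : P.State} {σ : List P.Sym} {L : List V} {c : β}
    (h : P.Runs (plug p b x) q σ L c) :
    (fixPD p b P).Runs x (q, true) (σ.map some) (L.filterMap (idx p)) c := by
  induction h with
  | @out q σ c h =>
    apply PP.Runs.out
    simp only [fixPD, h]
  | @query q σ v nxt L c h _ ih =>
    rw [List.filterMap_cons]
    by_cases hv : ∃ i, p i = v
    · obtain ⟨i, rfl⟩ := hv
      rw [idx_apply p hp]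
      simp only
      rw [plug_apply p hp] at ih
      exact PP.Runs.query (P := fixPD p b P) (nxt := fun c => (nxt c, true))
        (by simp only [fixPD, h, idx_apply p hp]) ih
    · push Not at hv
      rw [idx_other p v hv]
      simp only
      rw [plug_other p b x v hv] at ih
      refine PP.Runs.push (P := fixPD p b P) (a := none) (q' := (nxt (b v), false))
        (by simp only [fixPD, h, idx_other p v hv]) ?_
      exact PP.Runs.pop (P := fixPD p b P) (nxt := fun _ => (nxt (b v), true))
        (by simp only [fixPD]) ih
  | @push q σ a q' L c h _ ih =>
    exact PP.Runs.push (P := fixPD p b P) (a := some a) (q' := (q', true))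
      (by simp only [fixPD, h]) ih
  | @pop q a σ nxt L c h _ ih =>
    exact PP.Runs.pop (P := fixPD p b P) (a := some a) (nxt := fun a => match a with
        | some a => (nxt a, true)
        | none => (q, true)) (by
          simp only [fixPD, h]
          congr 1
          funext a
          cases a <;> rfl) ih

theorem fixPD_sound {p : Fin n → V} (hp : Function.Injective p) (b : V → Bool) (P : PP V β)
    (x : Pt n) {s : (fixPD p b P).State} {τ : List (fixPD p b P).Sym} {l : List (Fin n)} {c : β}
    (h : (fixPD p b P).Runs x s τ l c) :
    (∀ σ : List P.Sym, s.2 = true → τ = σ.map some →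
      ∃ L, P.Runs (plug p b x) s.1 σ L c) ∧
    (∀ σ : List P.Sym, s.2 = false → τ = none :: σ.map some →
      ∃ L, P.Runs (plug p b x) s.1 σ L c) := by
  induction h with
  | @out s τ c h =>
    obtain ⟨q, f⟩ := s
    cases f with
    | true =>
      refine ⟨fun σ _ _ => ?_, fun σ h1 _ => by simp at h1⟩
      cases hq : P.act q with
      | query v nxt =>
        simp only [fixPD, hq] at h
        cases hi : idx p v with
        | none => simp only [hi] at h; simp at h
        | some i => simp only [hi] at h; simp at h
      | push a q' => simp only [fixPD, hq] at h; simp at h
      | pop nxt => simp only [fixPD, hq] at h; simp at h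
      | out c' =>
        simp only [fixPD, hq, Act.out.injEq] at h
        subst h
        exact ⟨[], PP.Runs.out hq⟩
    | false => simp only [fixPD] at h; simp at h
  | @query s τ i nxt l c h _ ih =>
    obtain ⟨q, f⟩ := s
    cases f with
    | true =>
      refine ⟨fun σ _ hτ => ?_, fun σ h1 _ => by simp at h1⟩
      cases hq : P.act q with
      | query v nxt' =>
        simp only [fixPD, hq] at h
        cases hi : idx p v with
        | none => simp only [hi] at h; simp at h
        | some j =>
          simp only [hi, Act.query.injEq] at h
          obtain ⟨rfl, rfl⟩ := h
          have hv : p j = v := by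
            by_cases hv : ∃ i, p i = v
            · obtain ⟨i', rfl⟩ := hv
              rw [idx_apply p hp] at hi
              simp only [Option.some.injEq] at hi
              rw [hi]
            · push Not at hv
              rw [idx_other p v hv] at hi
              simp at hi
          obtain ⟨L, hL⟩ := ih.1 σ rfl hτ
          refine ⟨v :: L, PP.Runs.query hq ?_⟩
          rw [← hv, plug_apply p hp]
          exact hL
      | push a q' => simp only [fixPD, hq] at h; simp at h
      | pop nxt => simp only [fixPD, hq] at h; simp at h
      | out c' => simp only [fixPD, hq] at h; simp at h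
    | false => simp only [fixPD] at h; simp at h
  | @push s τ a s' l c h _ ih =>
    obtain ⟨q, f⟩ := s
    cases f with
    | true =>
      refine ⟨fun σ _ hτ => ?_, fun σ h1 _ => by simp at h1⟩
      cases hq : P.act q with
      | query v nxt' =>
        simp only [fixPD, hq] at h
        cases hi : idx p v with
        | none =>
          simp only [hi, Act.push.injEq] at h
          obtain ⟨rfl, rfl⟩ := h
          have hv : ∀ i, p i ≠ v := by
            intro i hv
            rw [← hv, idx_apply p hp] at hi
            simp at hi
          obtain ⟨L, hL⟩ := ih.2 σ rfl (by rw [hτ])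
          refine ⟨v :: L, PP.Runs.query hq ?_⟩
          rw [plug_other p b x v hv]
          exact hL
        | some j => simp only [hi] at h; simp at h
      | push a' q' =>
        simp only [fixPD, hq, Act.push.injEq] at h
        obtain ⟨rfl, rfl⟩ := h
        obtain ⟨L, hL⟩ := ih.1 (a' :: σ) rfl (by rw [hτ]; rfl)
        exact ⟨L, PP.Runs.push hq hL⟩
      | pop nxt => simp only [fixPD, hq] at h; simp at h
      | out c' => simp only [fixPD, hq] at h; simp at h
    | false => simp only [fixPD] at h; simp at h
  | @pop s a τ nxt l c h _ ih =>
    obtain ⟨q, f⟩ := s
    cases f with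
    | true =>
      refine ⟨fun σ _ hτ => ?_, fun σ h1 _ => by simp at h1⟩
      cases hq : P.act q with
      | query v nxt' =>
        simp only [fixPD, hq] at h
        cases hi : idx p v with
        | none => simp only [hi] at h; simp at h
        | some j => simp only [hi] at h; simp at h
      | push a' q' => simp only [fixPD, hq] at h; simp at h
      | pop nxt' =>
        simp only [fixPD, hq, Act.pop.injEq] at h
        subst h
        cases σ with
        | nil => simp at hτ
        | cons a' σ =>
          simp only [List.map_cons, List.cons.injEq] at hτ
          obtain ⟨rfl, rfl⟩ := hτ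
          obtain ⟨L, hL⟩ := ih.1 σ rfl rfl
          exact ⟨L, PP.Runs.pop hq hL⟩
      | out c' => simp only [fixPD, hq] at h; simp at h
    | false =>
      refine ⟨fun σ h1 _ => by simp at h1, fun σ _ hτ => ?_⟩
      simp only [fixPD, Act.pop.injEq] at h
      subst h
      simp only [List.cons.injEq] at hτ
      exact ih.1 σ rfl hτ.2

end Pool.Agent.W896.PD
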